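import Pool.Agent.TH892.FullBox4

/-!
# The Bateman-Horn formula for almost all polynomials of degree `j` and height at most `H`, with
# arguments up to `H / (log H) ^ B`

For every degree `j` and for all but `1 / (log H) ^ U` of the integer polynomials of degree `j` with
coefficients at most `H` in absolute value the asymptotic formula of Bateman and Horn (Schinzel) holds,
with a relative error `(log H) ^ (-U)`, simultaneously for ALL lengths `K` between `H ^ ε` and
`H / (log H) ^ B`. The upper bound for `K` does not depend on the degree: the values reach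
`H ^ (j + 1 - o(1))`.

Proof (library `Pool/Agent/TH892`, `Pool/Agent/H300R2`): two coefficients, the constant term and the
leading one, carry the first moment through the large sieve and the Siegel-Walfisz theorem, in boxes in
which the middle coefficients are perturbed so that the logarithm of the polynomial has no
resonances (van der Corput).
-/

set_option autoImplicit false

namespace Pool.Agent.Results.MP_51e72e_nt.AllPolynomialsOfHeightH

open Finset Polynomial Filter

/-- the polynomial `c 0 + c 1 X + ... + c j X ^ j` -/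
noncomputable def poly {j : ℕ} (c : Fin (j + 1) → ℤ) : ℤ[X] :=
  ∑ i : Fin (j + 1), C (c i) * X ^ (i : ℕ)

/-- the integer vectors `(c 0, ..., c j)` with `|c i| ≤ H` for all `i` and `c j ≥ 1` -/
noncomputable def box (j H : ℕ) : Finset (Fin (j + 1) → ℤ) :=
  Fintype.piFinset (fun i => if (i : ℕ) = j then Icc 1 (H : ℤ) else Icc (-(H : ℤ)) H)

/-- `ω_f(p)`: the number of residue classes modulo `p` in which `f` vanishes modulo `p` -/
noncomputable def omega (f : ℤ[X]) (p : ℕ) : ℕ :=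
  ((range p).filter (fun k : ℕ => (p : ℤ) ∣ f.eval (k : ℤ))).card

/-- the Euler product `∏_{p ≤ z} (1 - ω_f(p) / p) / (1 - 1 / p)` -/
noncomputable def eulerProd (z : ℕ) (f : ℤ[X]) : ℝ :=
  ∏ p ∈ (Icc 1 z).filter Nat.Prime, (1 - (omega f p : ℝ) / p) / (1 - 1 / (p : ℝ))

/-- the number of `n ≤ K`, `n ≥ 1`, with `|f(n)|` prime -/
noncomputable def primeCount (f : ℤ[X]) (K : ℕ) : ℝ :=
  (((Icc 1 K).filter (fun n : ℕ => (f.eval (n : ℤ)).natAbs.Prime)).card : ℝ)

/-- `∑ 1 / log |f(n)|` over `1 ≤ n ≤ K` with `|f(n)| ≥ 2` -/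
noncomputable def logSum (f : ℤ[X]) (K : ℕ) : ℝ :=
  ∑ n ∈ (Icc 1 K).filter (fun n : ℕ => 2 ≤ |f.eval (n : ℤ)|),
    1 / Real.log |((f.eval (n : ℤ) : ℤ) : ℝ)|

open Classical in
/-- **The Bateman-Horn formula for almost all polynomials of height at most `H`.** Let `j ≥ 1`, `ε > 0`
and `U` be given, let `E` be large in terms of these, and let `B` and `H` be large in terms of these
and `E`. Put `z = ⌊(log H) ^ E⌋`. For the polynomials `f = c 0 + c 1 X + ... + c j X ^ j`
with integer coefficients `|c i| ≤ H`, `c j ≥ 1`: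
(1) for every `K` with `H ^ ε ≤ K ≤ H / (log H) ^ B` the mean value over all `f` of
`|#{n ≤ K : |f(n)| prime} - eulerProd z f * ∑_{n ≤ K} 1 / log |f(n)||` is at most `K / (log H) ^ U`, and
(2) all `f` without a fixed prime divisor `p ≤ z`, except for at most the proportion
`1 / (log H) ^ U` of all `f`, satisfy the formula
`#{n ≤ K : |f(n)| prime} = (1 + θ (log H) ^ (-U)) eulerProd z f ∑_{n ≤ K} 1 / log |f(n)|`, `|θ| ≤ 1`,
for ALL `K` with `H ^ ε ≤ K ≤ H / (log H) ^ B`. -/
theorem result (j : ℕ) (hj : 1 ≤ j) (ε : ℝ) (hε : 0 < ε) (U : ℕ) : ∃ E₁ : ℕ, ∀ E : ℕ, E₁ ≤ E →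
    ∃ B H₀ : ℕ, ∀ H : ℕ, H₀ ≤ H →
      (∀ K : ℕ, (H : ℝ) ^ ε ≤ K → (K : ℝ) * Real.log H ^ B ≤ H →
        ∑ c ∈ box j H, |primeCount (poly c) K -
          eulerProd ⌊Real.log H ^ E⌋₊ (poly c) * logSum (poly c) K| ≤
            ((box j H).card : ℝ) * (K / Real.log H ^ U)) ∧
      (((box j H).filter (fun c =>
        (∀ p : ℕ, p.Prime → p ≤ ⌊Real.log H ^ E⌋₊ → ∃ n : ℤ, ¬ (p : ℤ) ∣ (poly c).eval n) ∧
        ∃ K : ℕ, (H : ℝ) ^ ε ≤ K ∧ (K : ℝ) * Real.log H ^ B ≤ H ∧
          eulerProd ⌊Real.log H ^ E⌋₊ (poly c) * logSum (poly c) K / Real.log H ^ U <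
            |primeCount (poly c) K -
              eulerProd ⌊Real.log H ^ E⌋₊ (poly c) * logSum (poly c) K|)).card : ℝ) ≤
        ((box j H).card : ℝ) / Real.log H ^ U := by
  obtain ⟨E1, h1⟩ := Pool.Agent.TH892.mean_box j hj ε hε U
  obtain ⟨E2, h2⟩ := Pool.Agent.TH892.exc_box j hj ε hε U
  refine ⟨max E1 E2, fun E hE => ?_⟩
  obtain ⟨B1, H1, h1'⟩ := h1 E ((le_max_left _ _).trans hE)
  obtain ⟨B2, H2, h2'⟩ := h2 E ((le_max_right _ _).trans hE)
  refine ⟨max B1 B2, max (max H1 H2) 3, fun H hH => ?_⟩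
  have hH3 : 3 ≤ H := (le_max_right _ _).trans hH
  have hHH1 : H1 ≤ H := (le_max_left _ _).trans ((le_max_left _ _).trans hH)
  have hHH2 : H2 ≤ H := (le_max_right _ _).trans ((le_max_left _ _).trans hH)
  have hlog : 1 ≤ Real.log H := by
    have h3 : Real.exp 1 ≤ H := by
      have h4 : (3 : ℝ) ≤ H := by exact_mod_cast hH3
      have := Real.exp_one_lt_d9
      linarith
    rw [Real.le_log_iff_exp_le (by positivity)]
    exact h3
  have hB : ∀ (b : ℕ), b ≤ max B1 B2 → ∀ K : ℕ, (K : ℝ) * Real.log H ^ (max B1 B2) ≤ H →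
      (K : ℝ) * Real.log H ^ b ≤ H := by
    intro b hb K hK
    refine le_trans (mul_le_mul_of_nonneg_left ?_ (Nat.cast_nonneg K)) hK
    exact pow_le_pow_right₀ hlog hb
  constructor
  · intro K hK hKH
    have := h1' H hHH1 K hK (hB B1 (le_max_left _ _) K hKH)
    rw [mul_div_assoc] at this
    exact this
  · have := h2' H hHH2 (fun c =>
        (∀ p : ℕ, p.Prime → p ≤ ⌊Real.log H ^ E⌋₊ → ∃ n : ℤ, ¬ (p : ℤ) ∣ (poly c).eval n) ∧
        ∃ K : ℕ, (H : ℝ) ^ ε ≤ K ∧ (K : ℝ) * Real.log H ^ (max B1 B2) ≤ H ∧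
          eulerProd ⌊Real.log H ^ E⌋₊ (poly c) * logSum (poly c) K / Real.log H ^ U <
            |primeCount (poly c) K -
              eulerProd ⌊Real.log H ^ E⌋₊ (poly c) * logSum (poly c) K|) (by
      intro c _ hP
      obtain ⟨hp, K, hK1, hK2, hK3⟩ := hP
      refine ⟨fun p hpp hpz => (Pool.Agent.H300R2.BH.rho_ne_iff _ p hpp).mpr (hp p hpp hpz), K, hK1,
        hB B2 (le_max_right _ _) K hK2, hK3⟩)
    exact this

end Pool.Agent.Results.MP_51e72e_nt.AllPolynomialsOfHeightH
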