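import Pool.Agent.X31.F2

/-!
# The quantitative Hypothesis H for systems of linear polynomials with constant terms near the values of
# generalised polynomials

`f_i(t) = ∑ a_x t ^ x`, `i = 1, ..., k`, are arbitrary finite real combinations of real powers of `t` with positive
largest exponents `c_i` (for instance `t ^ {3/2}`, `√2 t ^ 3 + t`). For almost all vectors `(n_1, ..., n_k)` of elements of
ARBITRARY dense sets `𝒜_i ⊆ {1, ..., Y_i}` (for instance: primes), ALL vectors `(β_1, ..., β_k)` of integers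
with `|β_i - (b_i + f_i(n_i))| ≤ log ^ D N` and ALL slopes `|α_i| ≤ log ^ D N` for which the system of the polynomials
`α_i x + β_i` is admissible satisfy the asymptotic formula of the quantitative Hypothesis H, in every window of length at
least `N / log ^ A N`.

The bound for the real additive energy of all generalised polynomials is from `Pool.Agent.X31` (`gp_EB`, in this
run); the theorem for products of families with small energies is `Pool.Agent.TH935.TF.fam_sys` (starting files).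
-/

set_option autoImplicit false

namespace Pool.Agent.Results.MP_51e72e_nt.GeneralisedPolynomialConstants

open Finset Filter Topology
open Pool.Agent.TH935.TF

/-- the generalised polynomial with the exponents `x ∈ F` and the coefficients `a x` -/
noncomputable def f (F : Finset ℝ) (a : ℝ → ℝ) (t : ℝ) : ℝ := ∑ x ∈ F, a x * t ^ x

/-- `ω_F(p)` for the set `F` of the polynomials `α i x + β i`: the number of residue classes of
`n` modulo `p` with `f_1(n) ⋯ f_k(n) ≡ 0 (mod p)`. -/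
def omega {k : ℕ} (α β : Fin k → ℤ) (p : ℕ) : ℕ :=
  ((range p).filter (fun n : ℕ => (p : ℤ) ∣ ∏ i, (α i * (n : ℤ) + β i))).card

/-- The product over the primes `p ≤ z` of the factors `(1 - ω_F(p) / p) / (1 - 1 / p) ^ k` of `C_F`. -/
noncomputable def eulerProd {k : ℕ} (α β : Fin k → ℤ) (z : ℕ) : ℝ :=
  ∏ p ∈ (Icc 1 z).filter Nat.Prime, (1 - (omega α β p : ℝ) / p) / (1 - 1 / (p : ℝ)) ^ k

/-- The number of `n` with `y₁ < n ≤ y₂` such that `|α i n + β i|` is prime for every `i`. -/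
def count {k : ℕ} (α β : Fin k → ℤ) (y₁ y₂ : ℕ) : ℕ :=
  ((Ioc y₁ y₂).filter (fun n : ℕ => ∀ i, (α i * (n : ℤ) + β i).natAbs.Prime)).card

/-- The polynomials `α i x + β i` are not constant, no two of them are equal up to sign, and their product
has no fixed prime divisor. -/
def Admissible {k : ℕ} (α β : Fin k → ℤ) : Prop :=
  (∀ i, α i ≠ 0) ∧
  (∀ i j, i ≠ j → ¬ (α i = α j ∧ β i = β j) ∧ ¬ (α i = -α j ∧ β i = -β j)) ∧
  (∀ p : ℕ, p.Prime → ∃ n : ℤ, ¬ (p : ℤ) ∣ ∏ i, (α i * n + β i))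

/-- For all slopes `|α i| ≤ log ^ D N` for which the system `F` of the `α i x + β i` is admissible, the
product `C_F` converges to a number `C ≥ δ`, and for all `y₁ < y₂ ≤ B N` with
`y₂ - y₁ ≥ N / log ^ A N` the number of `n` with `y₁ < n ≤ y₂` such that all `|α i n + β i|` are prime agrees
with `C (y₂ - y₁) / log ^ k N` up to a relative error of at most `ε`. -/
def Holds (ε δ : ℝ) (A B D N : ℕ) {k : ℕ} (β : Fin k → ℤ) : Prop :=
  ∀ α : Fin k → ℤ, (∀ i, |(α i : ℝ)| ≤ Real.log N ^ D) → Admissible α β →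
    ∃ C : ℝ, δ ≤ C ∧ Tendsto (eulerProd α β) atTop (𝓝 C) ∧
      ∀ y₁ y₂ : ℕ, y₁ < y₂ → y₂ ≤ B * N → (N : ℝ) / Real.log N ^ A ≤ (y₂ : ℝ) - y₁ →
        |(count α β y₁ y₂ : ℝ) - C * ((y₂ : ℝ) - y₁) / Real.log N ^ k| ≤
          ε * (C * ((y₂ : ℝ) - y₁) / Real.log N ^ k)

lemma dvd_prod {k : ℕ} (α β : Fin k → ℤ) (p : ℕ) (hp : p.Prime) (n : ℤ) :
    (p : ℤ) ∣ ∏ i, (α i * n + β i) ↔ ∃ i, (p : ℤ) ∣ α i * n + β i := by
  have h := (Nat.prime_iff_prime_int.1 hp).dvd_finsetProd_iff (S := univ) (fun i => α i * n + β i)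
  simpa using h

lemma omega_eq {k : ℕ} (α β : Fin k → ℤ) (p : ℕ) (hp : p.Prime) : omega α β p = om α β p := by
  unfold omega om
  congr 1
  apply filter_congr
  intro n _
  exact dvd_prod α β p hp n

lemma euler_eq {k : ℕ} (α β : Fin k → ℤ) : eulerProd α β = fun z => Gz (om α β) k z := by
  funext z
  unfold eulerProd Gz Fq Pool.Agent.H373R2.T7.pz
  apply prod_congr rfl
  intro p hp
  rw [omega_eq α β p (mem_filter.1 hp).2]

lemma adm_of {k : ℕ} (α β : Fin k → ℤ) (h : Admissible α β) : Adm α β := by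
  intro p hp
  obtain ⟨n, hn⟩ := h.2.2 p hp
  refine ⟨n, fun i hi => hn ?_⟩
  exact (dvd_prod α β p hp n).2 ⟨i, hi⟩

/-- For every `k ≥ 1` there is `δ > 0` with the following property. Let `f_i = f (F i) (a i)`, `i = 1, ..., k`, be
arbitrary generalised polynomials with the largest exponents `c i > 0` and `a i (c i) ≠ 0`, let `A`, `B`, `D`, `U` be
natural numbers and `ε > 0`. For all sufficiently large `N` and all `Y i` with
`N / log ^ D N ≤ (Y i) ^ (c i) ≤ N`, ALL sets `𝒜 i ⊆ {1, ..., Y i}` with at least `Y i / log ^ D N` elements and all real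
`b i` with `|b i| ≤ N`: for all but at most `(∏ #(𝒜 i)) / log ^ U N` of the vectors `n` with `n i ∈ 𝒜 i`, ALL vectors
`β` of integers with `|β i - (b i + f_i(n i))| ≤ log ^ D N` satisfy `Holds ε δ A B D N β`. -/
theorem result : ∀ k : ℕ, 1 ≤ k → ∃ δ : ℝ, 0 < δ ∧
      ∀ (F : Fin k → Finset ℝ) (a : Fin k → ℝ → ℝ) (c : Fin k → ℝ),
        (∀ i, c i ∈ F i ∧ (∀ x ∈ F i, x ≤ c i) ∧ a i (c i) ≠ 0 ∧ 0 < c i) →
      ∀ (A B D U : ℕ) (ε : ℝ), 0 < ε → ∃ N₀ : ℕ, ∀ N : ℕ, N₀ ≤ N →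
      ∀ (Y : Fin k → ℕ) (𝒜 : Fin k → Finset ℕ) (b : Fin k → ℝ),
        (∀ i, (N : ℝ) / Real.log N ^ D ≤ (Y i : ℝ) ^ (c i) ∧ (Y i : ℝ) ^ (c i) ≤ N ∧
          𝒜 i ⊆ Icc 1 (Y i) ∧ (Y i : ℝ) / Real.log N ^ D ≤ (𝒜 i).card ∧ |b i| ≤ N) →
      ∃ E : Finset (Fin k → ℕ), (E.card : ℝ) ≤ (∏ i, ((𝒜 i).card : ℝ)) / Real.log N ^ U ∧
        ∀ n : Fin k → ℕ, (∀ i, n i ∈ 𝒜 i) → n ∉ E → ∀ β : Fin k → ℤ,
          (∀ i, |(β i : ℝ) - (b i + f (F i) (a i) (n i))| ≤ Real.log N ^ D) → Holds ε δ A B D N β := by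
  classical
  intro k hk
  obtain ⟨δ, hδ, hlow⟩ := Gz_low k hk
  refine ⟨δ, hδ, fun F a c hF A B D U ε hε => ?_⟩
  obtain ⟨N₀, h0⟩ := Pool.Agent.X31.gp_tuples F a c (fun i => (hF i).1) (fun i => (hF i).2.1)
    (fun i => (hF i).2.2.1) (fun i => (hF i).2.2.2) D U _
    (fun h _ => Pool.Agent.X31.famT_sys (sys_one k hk) hk h A B D ε hε)
  refine ⟨N₀ + 3, fun N hN Y 𝒜 b hdat => ?_⟩
  have hl : 0 < Real.log N := Real.log_pos (by exact_mod_cast (by omega : 1 < N))
  refine ⟨(Fintype.piFinset 𝒜).filter (fun n => ¬ ∀ β : Fin k → ℤ,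
          (∀ i, |(β i : ℝ) - (b i + f (F i) (a i) (n i))| ≤ Real.log N ^ D) → Holds ε δ A B D N β), ?_, ?_⟩
  swap
  · intro n hn hnE
    rw [mem_filter] at hnE
    by_contra hcon
    exact hnE ⟨Fintype.mem_piFinset.2 hn, hcon⟩
  · apply h0 N (by omega) Y 𝒜 b (fun i => ?_) _ (filter_subset _ _)
    · intro n hn
      rw [mem_filter] at hn
      obtain ⟨_, hn⟩ := hn
      push Not at hn
      obtain ⟨β, hm1, hm2⟩ := hn
      refine ⟨β, fun i => ?_, fun hG => hm2 ?_⟩
      · have := hm1 i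
        unfold f at this
        unfold Pool.Agent.X31.gp
        exact this
      · intro α hαL hadm
        have hA := adm_of α β hadm
        obtain ⟨S, hS0, hS1, hS2⟩ := hG α hadm.1
          (fun i => by rw [Nat.cast_natAbs, Int.cast_abs]; exact hαL i) hA hadm.2.1
        have hloc := loc_of hA hadm.2.1 hadm.1
        refine ⟨S, ?_, ?_, fun y₁ y₂ h12 hy2 hw => ?_⟩
        · exact ge_of_tendsto' hS1 (fun z => hlow _ _ hloc z)
        · rw [euler_eq]
          exact hS1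
        · exact hS2 y₁ y₂ h12.le hy2 hw
    · obtain ⟨d1, d2, d3, d4, d5⟩ := hdat i
      rw [div_le_iff₀ (by positivity)] at d1 d4
      exact ⟨d2, d1, d3, d4, d5⟩

end Pool.Agent.Results.MP_51e72e_nt.GeneralisedPolynomialConstants
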