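import Pool.Agent.Y677.RSZ.Fin
import Pool.Agent.X41.Harv.Growth

set_option autoImplicit false

/-!
# Narrow progressions in arbitrary sets of arguments at which all polynomials have rough values

Let `f i` (`i ∈ ι`, `k` of them) be distinct irreducible integer polynomials with positive leading
coefficients and without a local obstruction, and let `R r` be the set of the `n` for which all prime
factors of all the values `f i (n)` are larger than `n ^ (1 / r)`; for `r ≥ 2` it contains all large `n`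
for which all values are prime. For EVERY subset `A` of `R r`, every `l`, `ε`, `θ > 0` there is a `B` such
that in every short interval `(X, X + Y]`, `X ^ θ ≤ Y ≤ X`, all but at most `ε Y / log ^ k X` of the
elements of `A` are terms of an `l`-term arithmetic progression contained in `A ∩ (X, X + Y]` with
difference at most `(log X) ^ B`. The order of magnitude `Y / log ^ k X` is the right one: for large `r`
there are at least `κ Y / log ^ k X` elements `n` of `R r` in `(X, X + Y]` for which all values have at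
most `r` prime factors.
-/

namespace Pool.Agent.Results.MP_51e72e_nt.NarrowProgressions

open Polynomial Filter

/-- `R r`: all prime factors of all values `f i (n)` are larger than `n ^ (1 / r)`. -/
def R {ι : Type} (f : ι → ℤ[X]) (r : ℕ) : Set ℕ :=
  {n | ∀ i, ∀ p : ℕ, p.Prime → (p : ℤ) ∣ (f i).eval (n : ℤ) → (n : ℝ) ^ (1 / (r : ℝ)) < (p : ℝ)}

open Classical in
/-- the number of elements of `S` in `(a, b]` -/
noncomputable def count (S : Set ℕ) (a b : ℕ) : ℕ := ((Finset.Ioc a b).filter (fun n => n ∈ S)).card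

/-- `n` is a term of an `l`-term arithmetic progression `u, u + d, …, u + (l - 1) d` with
`1 ≤ d ≤ D` contained in `A ∩ (a, b]`. -/
def InProgression (A : Set ℕ) (l : ℕ) (D : ℝ) (a b n : ℕ) : Prop :=
  ∃ u d : ℕ, 1 ≤ d ∧ (d : ℝ) ≤ D ∧ (∀ i < l, u + i * d ∈ A ∧ a < u + i * d ∧ u + i * d ≤ b) ∧
    ∃ i < l, n = u + i * d

/-- **Narrow progressions in short intervals for polynomial systems.** -/
theorem result {ι : Type} [Fintype ι] [Nonempty ι] (f : ι → ℤ[X])
    (hirr : ∀ i, Irreducible (f i)) (hdeg : ∀ i, 0 < (f i).natDegree)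
    (hlead : ∀ i, 0 < (f i).leadingCoeff) (hinj : Function.Injective f)
    (hadm : ∀ p : ℕ, p.Prime → ∃ m : ℕ, ∀ i, ¬ (p : ℤ) ∣ (f i).eval (m : ℤ))
    (θ : ℝ) (hθ : 0 < θ) (hθ1 : θ ≤ 1) :
    ∃ r₀ : ℕ, 2 ≤ r₀ ∧ ∀ r : ℕ, r₀ ≤ r →
      (∀ᶠ n : ℕ in atTop, (∀ i, ((f i).eval (n : ℤ)).natAbs.Prime) → n ∈ R f r) ∧
      (∃ κ : ℝ, 0 < κ ∧ ∀ᶠ X : ℕ in atTop, ∀ Y : ℕ, (X : ℝ) ^ θ ≤ Y → Y ≤ X →
        κ * Y / Real.log X ^ Fintype.card ι ≤
          count {n | n ∈ R f r ∧ ∀ i, ((f i).eval (n : ℤ)).natAbs.primeFactorsList.length ≤ r}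
            X (X + Y)) ∧
      ∀ l : ℕ, 2 ≤ l → ∀ ε : ℝ, 0 < ε → ∃ B : ℕ, ∀ᶠ X : ℕ in atTop, ∀ Y : ℕ,
        (X : ℝ) ^ θ ≤ Y → Y ≤ X → ∀ A : Set ℕ, A ⊆ R f r →
          (count {n | n ∈ A ∧ ¬ InProgression A l (Real.log X ^ B) X (X + Y) n} X (X + Y) : ℝ) ≤
            ε * Y / Real.log X ^ Fintype.card ι := by
  obtain ⟨r₀, hr₀, h⟩ := Pool.Agent.Y677.RSZ.narrow_final f ⟨hirr, hdeg, hlead, hinj, hadm⟩
    (fun r => R f r)
    (fun r => {n | n ∈ R f r ∧ ∀ i, ((f i).eval (n : ℤ)).natAbs.primeFactorsList.length ≤ r})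
    (Fintype.card ι) rfl (fun r m _ hm => hm) (fun r m _ h1 h2 => ⟨h1, h2⟩) θ hθ hθ1
  refine ⟨r₀, hr₀, fun r hr => ⟨?_, ?_, ?_⟩⟩
  · have h1 : ∀ i, ∀ᶠ n : ℕ in atTop, ((f i).eval (n : ℤ)).natAbs.Prime → ∀ p : ℕ, p.Prime →
        (p : ℤ) ∣ (f i).eval (n : ℤ) → (n : ℝ) ^ (1 / (r : ℝ)) < (p : ℝ) :=
      fun i => Pool.Agent.X41.Harv.rough_of_prime (f i) (hdeg i) r (hr₀.trans hr)
    filter_upwards [eventually_all.2 h1] with n hn hpr i
    exact hn i (hpr i)
  · exact (h r hr).1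
  · exact (h r hr).2

end Pool.Agent.Results.MP_51e72e_nt.NarrowProgressions
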