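import Mathlib
import Pool.Agent.X26.GP.Sys

/-!
# Quantitative Hypothesis H: from a system of polynomials to all systems of its shifts in a narrow box

Let `f_1, …, f_s` be polynomials without a fixed prime divisor (of the product) of total degree `≤ r`. If the number
of the `n` in a window of length `X` for which all `|f_i(n)|` are prime has the right order, or for ANY set `S` of
such `n` of the right order, then for a positive proportion of the vectors `d ∈ [1, D] ^ m`, where `D` is any number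
between a power of `log X` and `X`, and for ALL `F ⊆ {0, …, k - 1} ^ m` with `0 ∈ F`, the system of the polynomials
`f_i(x + ∑ g_j d_j)`, `g ∈ F`, has no fixed prime divisor and the lower bound of the order predicted by Hypothesis H
holds for it, with `n` and all `n + ∑ g_j d_j` in `S`. All constants depend on `m, k, r` only (and on the proportion),
not on the polynomials nor on the window. For almost prime values the hypothesis always holds: the number of prime
factors of the values is bounded in terms of the degree and the size of the values only, not of `m, k, F`.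

Method: a relative multidimensional Szemerédi theorem in windows of length `D` with an enveloping sieve.
-/

set_option autoImplicit false

open Finset Polynomial

namespace Pool.Agent.Results.MP_51e72e_nt.PatternsOfArguments

/-- no prime divides all the values of `f` -/
def NoFixedDivisor (f : ℤ[X]) : Prop := ∀ q : ℕ, q.Prime → ∃ n : ℤ, ¬ (q : ℤ) ∣ f.eval n

/-- the number of the zeros of `f` modulo `q` -/
def zeros (f : ℤ[X]) (q : ℕ) : ℕ := ((range q).filter (fun u : ℕ => (q : ℤ) ∣ f.eval (u : ℤ))).card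

/-- the number of the zeros modulo `q` of the product of the polynomials `f (x + g_1 d_1 + … + g_m d_m)`, `g ∈ F` -/
def omega (f : ℤ[X]) {m : ℕ} (d : Fin m → ℕ) (F : Finset (Fin m → ℕ)) (q : ℕ) : ℕ :=
  ((range q).filter (fun u : ℕ => ∃ g ∈ F, (q : ℤ) ∣ f.eval ((u : ℤ) + ∑ i, (g i : ℤ) * (d i : ℤ)))).card

/-- the product of `1 - w q / q` over the primes up to `X` -/
noncomputable def prod (w : ℕ → ℕ) (X : ℕ) : ℝ := ∏ q ∈ (Icc 1 X).filter Nat.Prime, (1 - (w q : ℝ) / q)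

/-- the integers `g_1 d_1 + … + g_m d_m`, `g ∈ F` -/
def pat {m : ℕ} (d : Fin m → ℕ) (F : Finset (Fin m → ℕ)) : Finset ℕ := F.image (fun g => ∑ i, g i * d i)

/-- `N` is a product of at most `j` primes, all larger than `X ^ (1 / j)` -/
def Almost (j X : ℕ) (N : ℕ) : Prop :=
  N ≠ 0 ∧ N.primeFactorsList.length ≤ j ∧ ∀ q : ℕ, q.Prime → q ∣ N → (X : ℝ) ^ (1 / (j : ℝ)) < q

/-- For at least `c D ^ m` vectors `d ∈ {1, …, D} ^ m` the following holds for ALL `F ⊆ {0, …, k - 1} ^ m` with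
`0 ∈ F`: the integers `∑ g_i d_i`, `g ∈ F`, are distinct; the product of the `f (x + ∑ g_i d_i)` has no fixed prime
divisor, that is `ω(q) < q` for its number `ω(q)` of zeros modulo every prime `q`; and
`c X ∏_{q ≤ X} (1 - ω(q) / q) ≤ N F d`. -/
def ManyPatterns (c : ℝ) (m k X D : ℕ) (f : ℤ[X]) (N : Finset (Fin m → ℕ) → (Fin m → ℕ) → ℕ) : Prop :=
  ∃ G ⊆ Fintype.piFinset (fun _ : Fin m => Icc 1 D), c * (D : ℝ) ^ m ≤ (G.card : ℝ) ∧ ∀ d ∈ G,
    ∀ F : Finset (Fin m → ℕ), (∀ g ∈ F, ∀ i, g i < k) → (fun _ => 0) ∈ F →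
      (pat d F).card = F.card ∧ (∀ q : ℕ, q.Prime → omega f d F q < q) ∧
      c * (X * prod (omega f d F) X) ≤ (N F d : ℝ)

open Classical in
/-- 1. For all `m`, `k`, `r` and `δ > 0` there are `c > 0`, `B` and `X₀` such that for all `X ≥ X₀`, all windows
`(A, A + X]`, all `D` with `log ^ B X ≤ D ≤ X`, all systems of polynomials `f_1, …, f_s` the product `f` of which has a
degree of at most `r` and no fixed prime divisor, and every set `S` of at least `δ X ∏_{q ≤ X} (1 - ω_f(q) / q)`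
integers `n` of the window for which all `|f_i(n)|` are prime: for at least `c D ^ m` vectors `d ∈ {1, …, D} ^ m` and
ALL `F ⊆ {0, …, k - 1} ^ m` with `0 ∈ F` the system of the polynomials `f_i (x + ∑ g_j d_j)`, `g ∈ F`, has no fixed
prime divisor, and for at least `c X ∏_{q ≤ X} (1 - ω_F(q) / q)` elements `n` of `S` all the `n + ∑ g_j d_j`,
`g ∈ F`, are in `S`.

2. The same holds for the sets `S` of integers `n` for which `f(n)` has no prime factor `≤ X ^ κ`, for every `κ > 0`.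

3. For all `r` and `h` there is `j` such that for all `m`, `k` the same holds (with `|f(n)| ≤ X ^ h` in the window) for
the number of the `n` of the window for which all the `n + ∑ g_j d_j`, `g ∈ F`, are in the window and
`f (n + ∑ g_j d_j)` is a product of at most `j` primes, all larger than `X ^ (1 / j)`. -/
theorem result :
    (∀ (m k r : ℕ) (δ : ℝ), 0 < δ → ∃ c : ℝ, 0 < c ∧ ∃ B X₀ : ℕ, ∀ X A D : ℕ, X₀ ≤ X →
      Real.log X ^ B ≤ D → D ≤ X → ∀ (s : ℕ) (f : Fin s → ℤ[X]), (∏ i, f i).natDegree ≤ r →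
      NoFixedDivisor (∏ i, f i) → ∀ S ⊆ Ioc A (A + X), (∀ n ∈ S, ∀ i, ((f i).eval (n : ℤ)).natAbs.Prime) →
      δ * (X * prod (zeros (∏ i, f i)) X) ≤ (S.card : ℝ) →
      ManyPatterns c m k X D (∏ i, f i) (fun F d => (S.filter (fun n => ∀ g ∈ F, n + ∑ i, g i * d i ∈ S)).card)) ∧
    (∀ (m k r : ℕ) (κ δ : ℝ), 0 < κ → κ ≤ 1 → 0 < δ → ∃ c : ℝ, 0 < c ∧ ∃ B X₀ : ℕ, ∀ X A D : ℕ, X₀ ≤ X →
      Real.log X ^ B ≤ D → D ≤ X → ∀ f : ℤ[X], f.natDegree ≤ r → NoFixedDivisor f → ∀ S ⊆ Ioc A (A + X),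
      (∀ n ∈ S, ∀ q : ℕ, q.Prime → (q : ℝ) ≤ (X : ℝ) ^ κ → ¬ (q : ℤ) ∣ f.eval (n : ℤ)) →
      δ * (X * prod (zeros f) X) ≤ (S.card : ℝ) →
      ManyPatterns c m k X D f (fun F d => (S.filter (fun n => ∀ g ∈ F, n + ∑ i, g i * d i ∈ S)).card)) ∧
    (∀ (r : ℕ) (h : ℝ), ∃ j : ℕ, 1 ≤ j ∧ ∀ m k : ℕ, ∃ c : ℝ, 0 < c ∧ ∃ B X₀ : ℕ, ∀ X A D : ℕ, X₀ ≤ X →
      Real.log X ^ B ≤ D → D ≤ X → ∀ f : ℤ[X], f.natDegree ≤ r → NoFixedDivisor f →
      (∀ n ∈ Ioc A (A + X), |((f.eval (n : ℤ) : ℤ) : ℝ)| ≤ (X : ℝ) ^ h) →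
      ManyPatterns c m k X D f (fun F d => ((Ioc A (A + X)).filter (fun n => ∀ g ∈ F,
        n + ∑ i, g i * d i ≤ A + X ∧ Almost j X (f.eval (((n + ∑ i, g i * d i : ℕ)) : ℤ)).natAbs)).card)) := by
  refine ⟨?_, ?_, ?_⟩
  · intro m k r δ hδ
    obtain ⟨c, hc, B, X₀, h⟩ := Pool.Agent.X26.GP.sys m k r hδ
    refine ⟨c, hc, B, X₀, ?_⟩
    intro X A D hX hBD hDX s f hfr hf S hSA hSP hSc
    obtain ⟨G, h1, h2, h3⟩ := h X A D hX hBD hDX s f hfr hf S hSA hSP hSc
    refine ⟨G, h1, h2, fun d hd F hF h0 => ?_⟩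
    obtain ⟨g1, g2, g3⟩ := h3 d hd F hF h0
    refine ⟨g1, g2, g3.trans (le_of_eq ?_)⟩
    congr!
  · intro m k r κ δ hκ hκ1 hδ
    obtain ⟨c, hc, B, X₀, h⟩ := Pool.Agent.X26.GP.poly m k r hκ hκ1 hδ
    refine ⟨c, hc, B, X₀, ?_⟩
    intro X A D hX hBD hDX f hfr hf S hSA hSP hSc
    obtain ⟨G, h1, h2, h3⟩ := h X A D hX hBD hDX f hfr hf S hSA hSP hSc
    refine ⟨G, h1, h2, fun d hd F hF h0 => ?_⟩
    obtain ⟨g1, g2, g3⟩ := h3 d hd F hF h0
    refine ⟨g1, g2, g3.trans (le_of_eq ?_)⟩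
    congr!
  · intro r h
    obtain ⟨j, hj, h1⟩ := Pool.Agent.X26.GP.almost r h
    refine ⟨j, hj, fun m k => ?_⟩
    obtain ⟨c, hc, B, X₀, h⟩ := h1 m k
    refine ⟨c, hc, B, X₀, ?_⟩
    intro X A D hX hBD hDX f hfr hf hfh
    obtain ⟨G, h1, h2, h3⟩ := h X A D hX hBD hDX f hfr hf hfh
    refine ⟨G, h1, h2, fun d hd F hF h0 => ?_⟩
    obtain ⟨g1, g2, g3⟩ := h3 d hd F hF h0
    refine ⟨g1, g2, g3.trans (le_of_eq ?_)⟩
    congr!

end Pool.Agent.Results.MP_51e72e_nt.PatternsOfArguments
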